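import Mathlib
import Pool.Agent.H728R3.SR.F
import Pool.Agent.H147R3.PE.Nine
set_option autoImplicit false

/-! Random signs on boxes of all scales: groups of boxes of similar size. -/

namespace Pool.Agent.Q167.MS

open MeasureTheory Set Complex Filter Topology
open scoped ENNReal NNReal
open Pool.Agent.H147R3.PE (wsum tsum_fin)
open Pool.Agent.H728R3.SR (e1 e1_meas e1_bd ind ind_meas ind_bd Adm SQ ww pc ext ext_pc ext_pc_meas
  square consts2)

lemma ind_le (a b x t : ℝ) : ‖e1 (ind a b) x t‖ₑ ≤ ENNReal.ofReal (b - a) := by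
  unfold Pool.Agent.H728R3.SR.e1
  refine (enorm_integral_le_lintegral_enorm _).trans ?_
  calc ∫⁻ y in Icc (-1 : ℝ) 1,
        ‖ind a b y * cexp (2 * Real.pi * I * ((y * x + y ^ 2 * t : ℝ) : ℂ))‖ₑ
      ≤ ∫⁻ y, ‖ind a b y * cexp (2 * Real.pi * I * ((y * x + y ^ 2 * t : ℝ) : ℂ))‖ₑ :=
        setLIntegral_le_lintegral _ _
    _ = ∫⁻ y, (Icc a b).indicator (fun _ => (1 : ℝ≥0∞)) y := by
        apply lintegral_congr
        intro y
        have : (2 * Real.pi * I * ((y * x + y ^ 2 * t : ℝ) : ℂ)) =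
            ((2 * Real.pi * (y * x + y ^ 2 * t) : ℝ) : ℂ) * I := by
          push_cast
          ring
        rw [enorm_mul, this, ← ofReal_norm (cexp _), Complex.norm_exp_ofReal_mul_I,
          ENNReal.ofReal_one, mul_one]
        unfold ind
        by_cases hy : y ∈ Icc a b
        · rw [indicator_of_mem hy, indicator_of_mem hy]
          simp
        · rw [indicator_of_notMem hy, indicator_of_notMem hy]
          simp
    _ = _ := by
        rw [lintegral_indicator measurableSet_Icc, lintegral_const, Measure.restrict_apply_univ,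
          Real.volume_Icc, one_mul]

variable {m : ℕ}

/-- the volume of a box -/
noncomputable def vo (a b : Fin m → ℝ) : ℝ := ∏ j, (b j - a j)

/-- squared modulus of the extension of a piece -/
noncomputable def pp (a b : Fin m → ℝ) (g : ℝ → ℂ) (y : (Fin (m + 1) → ℝ) × ℝ) : ℝ≥0∞ :=
  ‖ext (pc a b g) y‖ₑ ^ 2

lemma pp_meas (a b : Fin m → ℝ) {g : ℝ → ℂ} (hg : Measurable g) : Measurable (pp a b g) :=
  (ext_pc_meas a b g hg).enorm.pow_const 2

lemma pp_le {a b : Fin m → ℝ} (hab : ∀ j, a j ≤ b j) {g : ℝ → ℂ} (hg : Measurable g)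
    (hb : ∀ y, ‖g y‖ ≤ 1) (y : (Fin (m + 1) → ℝ) × ℝ) :
    pp a b g y ≤ ENNReal.ofReal (4 * vo a b ^ 2) := by
  unfold pp
  rw [ext_pc, enorm_mul, mul_pow]
  have h1 : ‖∏ j, e1 (ind (a j) (b j)) (y.1 j.succ) y.2‖ₑ ≤ ENNReal.ofReal (vo a b) := by
    rw [← ofReal_norm, norm_prod, ENNReal.ofReal_prod_of_nonneg (fun _ _ => norm_nonneg _)]
    unfold vo
    rw [ENNReal.ofReal_prod_of_nonneg (fun j _ => by linarith [hab j])]
    apply Finset.prod_le_prod'
    intro j _
    rw [ofReal_norm]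
    exact ind_le _ _ _ _
  have h0 : 0 ≤ vo a b := Finset.prod_nonneg fun j _ => by linarith [hab j]
  calc _ ≤ (2 : ℝ≥0∞) ^ 2 * ENNReal.ofReal (vo a b) ^ 2 := by
        gcongr
        exact e1_bd hg hb _ _
    _ = _ := by
        rw [ENNReal.ofReal_mul (by norm_num), ENNReal.ofReal_pow h0]
        norm_num

/-- the boxes of size about `2^(m-s)` -/
def GG (s : ℕ) (a b : Fin m → ℝ) : Prop :=
  (1 / 2 : ℝ) ^ (s + 1) < vo a b / 2 ^ m ∧ vo a b / 2 ^ m ≤ (1 / 2 : ℝ) ^ s

lemma vo_le {a b : Fin m → ℝ} (h : ∀ j, -1 ≤ a j ∧ a j ≤ b j ∧ b j ≤ 1) : vo a b ≤ 2 ^ m := by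
  unfold vo
  calc _ ≤ ∏ _j : Fin m, (2 : ℝ) := Finset.prod_le_prod (fun j _ => by linarith [(h j).2.1])
        fun j _ => by linarith [(h j).1, (h j).2.2]
    _ = _ := by simp

lemma GG_ex {a b : Fin m → ℝ} (h : ∀ j, -1 ≤ a j ∧ a j ≤ b j ∧ b j ≤ 1) (h0 : 0 < vo a b) :
    ∃ s, GG s a b := by
  have h1 : 0 < vo a b / 2 ^ m := by positivity
  have h2 : vo a b / 2 ^ m ≤ 1 := by
    rw [div_le_one (by positivity)]
    exact vo_le h
  exact exists_nat_pow_near_of_lt_one h1 h2 (by norm_num) (by norm_num)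

open Classical in
/-- one group -/
noncomputable def SG {ι : Type} [Fintype ι] (s : ℕ) (c : ι → ℝ) (a b : ι → Fin m → ℝ)
    (g : ι → ℝ → ℂ) (y : (Fin (m + 1) → ℝ) × ℝ) : ℝ≥0∞ :=
  ∑ k, if GG s (a k) (b k) then ENNReal.ofReal (c k ^ 2) * pp (a k) (b k) (g k) y else 0

variable {ι : Type} [Fintype ι]

/-- admissible families -/
structure Ad (δ : ℝ) (c : ι → ℝ) (a b : ι → Fin m → ℝ) (g : ι → ℝ → ℂ) : Prop where
  box : ∀ k j, -1 ≤ a k j ∧ a k j ≤ b k j ∧ b k j ≤ 1
  meas : ∀ k, Measurable (g k)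
  bd : ∀ k y, ‖g k y‖ ≤ 1
  ov : ∀ᵐ ξ : Fin m → ℝ, ∑ k, c k ^ 2 * vo (a k) (b k) ^ δ *
    (Icc (a k) (b k)).indicator (fun _ => (1 : ℝ)) ξ ≤ 1

variable {δ : ℝ} {c : ι → ℝ} {a b : ι → Fin m → ℝ} {g : ι → ℝ → ℂ}

lemma Ad.vo0 (h : Ad δ c a b g) (k : ι) : 0 ≤ vo (a k) (b k) :=
  Finset.prod_nonneg fun j _ => by linarith [(h.box k j).2.1]

lemma SG_meas (h : Ad δ c a b g) (s : ℕ) : Measurable (SG s c a b g) := by
  unfold SG
  apply Finset.measurable_sum
  intro k _
  split_ifs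
  · exact (pp_meas _ _ (h.meas k)).const_mul _
  · exact measurable_const

lemma SG_sum (h : Ad δ c a b g) (y : (Fin (m + 1) → ℝ) × ℝ) :
    ∑ k, ENNReal.ofReal (c k ^ 2) * pp (a k) (b k) (g k) y ≤ ∑' s, SG s c a b g y := by
  classical
  unfold SG
  rw [Summable.tsum_finsetSum (fun _ _ => ENNReal.summable)]
  apply Finset.sum_le_sum
  intro k _
  rcases (h.vo0 k).lt_or_eq with h0 | h0
  · obtain ⟨s, hs⟩ := GG_ex (h.box k) h0
    calc ENNReal.ofReal (c k ^ 2) * pp (a k) (b k) (g k) y =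
        if GG s (a k) (b k) then ENNReal.ofReal (c k ^ 2) * pp (a k) (b k) (g k) y else 0 := by
          rw [if_pos hs]
      _ ≤ _ := ENNReal.le_tsum s
  · have := pp_le (fun j => (h.box k j).2.1) (h.meas k) (h.bd k) y
    rw [← h0] at this
    simp only [ne_eq, OfNat.ofNat_ne_zero, not_false_eq_true, zero_pow, mul_zero,
      ENNReal.ofReal_zero, nonpos_iff_eq_zero] at this
    rw [this, mul_zero]
    exact zero_le

/-- weight of a group -/
noncomputable def la (δ : ℝ) (s : ℕ) : ℝ := ((1 / 2 : ℝ) ^ (s + 1)) ^ δ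

lemma la_pos (δ : ℝ) (s : ℕ) : 0 < la δ s := by
  unfold la
  positivity

lemma la_le (h : Ad δ c a b g) (hδ : 0 ≤ δ) {s : ℕ} {k : ι} (hk : GG s (a k) (b k)) :
    la δ s ≤ vo (a k) (b k) ^ δ := by
  unfold la
  apply Real.rpow_le_rpow (by positivity) _ hδ
  have h1 := hk.1
  rw [lt_div_iff₀ (by positivity)] at h1
  have h2 : (1 : ℝ) ≤ 2 ^ m := one_le_pow₀ (by norm_num)
  have h3 : (0 : ℝ) < (1 / 2 : ℝ) ^ (s + 1) := by positivity
  nlinarith

open Classical in
lemma group_ov (h : Ad δ c a b g) (hδ : 0 ≤ δ) (s : ℕ) : ∀ᵐ ξ : Fin m → ℝ,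
    ∑ k, (if GG s (a k) (b k) then c k ^ 2 * la δ s else 0) *
      (Icc (a k) (b k)).indicator (fun _ => (1 : ℝ)) ξ ≤ 1 := by
  filter_upwards [h.ov] with ξ hξ
  refine le_trans (Finset.sum_le_sum fun k _ => ?_) hξ
  apply mul_le_mul_of_nonneg_right _ (indicator_nonneg (fun _ _ => zero_le_one) _)
  split_ifs with hk
  · exact mul_le_mul_of_nonneg_left (la_le h hδ hk) (sq_nonneg _)
  · exact mul_nonneg (sq_nonneg _) (Real.rpow_nonneg (h.vo0 k) _)

open Classical in
/-- the coefficients of a group -/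
noncomputable def cc (δ : ℝ) (s : ℕ) (c : ι → ℝ) (a b : ι → Fin m → ℝ) (k : ι) : ℝ :=
  if GG s (a k) (b k) then c k * Real.sqrt (la δ s) else 0

omit [Fintype ι] in
open Classical in
lemma cc_sq (k : ι) (s : ℕ) : cc δ s c a b k ^ 2 =
    if GG s (a k) (b k) then c k ^ 2 * la δ s else 0 := by
  unfold cc
  split_ifs
  · rw [mul_pow, Real.sq_sqrt (la_pos δ s).le]
  · norm_num

lemma group_adm (h : Ad δ c a b g) (hδ : 0 ≤ δ) (s : ℕ) : Adm (cc δ s c a b) a b g := by
  classical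
  refine ⟨fun k j => (h.box k j).1, fun k j => (h.box k j).2.1, fun k j => (h.box k j).2.2, h.meas,
    h.bd, ?_⟩
  simp only [cc_sq]
  exact group_ov h hδ s

lemma group_SQ (s : ℕ) (y : (Fin (m + 1) → ℝ) × ℝ) :
    SQ (cc δ s c a b) a b g y = ENNReal.ofReal (la δ s) * SG s c a b g y := by
  classical
  unfold SQ SG
  rw [Finset.mul_sum]
  apply Finset.sum_congr rfl
  intro k _
  rw [enorm_mul, mul_pow]
  have h1 : ‖((cc δ s c a b k : ℝ) : ℂ)‖ₑ ^ 2 = ENNReal.ofReal (cc δ s c a b k ^ 2) := by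
    rw [← ofReal_norm, ← ENNReal.ofReal_pow (norm_nonneg _), Complex.norm_real,
      Real.norm_eq_abs, sq_abs]
  rw [h1, cc_sq]
  unfold pp
  split_ifs
  · rw [mul_comm (c k ^ 2), ENNReal.ofReal_mul (la_pos δ s).le, mul_assoc]
  · simp

/-- the total volume of a group -/
lemma group_vol (h : Ad δ c a b g) (hδ : 0 ≤ δ) (s : ℕ) :
    ∑ k, ENNReal.ofReal (cc δ s c a b k ^ 2) * ENNReal.ofReal (vo (a k) (b k)) ≤ 2 ^ m := by
  have := (group_adm h hδ s).mass
  refine le_trans (le_of_eq ?_) this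
  apply Finset.sum_congr rfl
  intro k _
  unfold vo
  rw [ENNReal.ofReal_prod_of_nonneg (fun j _ => by linarith [(h.box k j).2.1])]

/-- sup bound of a group -/
lemma group_sup (h : Ad δ c a b g) (hδ : 0 ≤ δ) (s : ℕ) (y : (Fin (m + 1) → ℝ) × ℝ) :
    ENNReal.ofReal (la δ s) * SG s c a b g y ≤
      ENNReal.ofReal (4 * 4 ^ m * (1 / 2 : ℝ) ^ s) := by
  classical
  unfold SG
  rw [Finset.mul_sum]
  calc _ ≤ ∑ k, ENNReal.ofReal (4 * (2 ^ m * (1 / 2 : ℝ) ^ s)) *
        (ENNReal.ofReal (cc δ s c a b k ^ 2) * ENNReal.ofReal (vo (a k) (b k))) := by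
        apply Finset.sum_le_sum
        intro k _
        rw [cc_sq]
        split_ifs with hk
        · have h1 := pp_le (fun j => (h.box k j).2.1) (h.meas k) (h.bd k) y
          have h2 := hk.2
          rw [div_le_iff₀ (by positivity)] at h2
          have h3 := h.vo0 k
          calc _ ≤ ENNReal.ofReal (la δ s) * (ENNReal.ofReal (c k ^ 2) *
                ENNReal.ofReal (4 * vo (a k) (b k) ^ 2)) :=
                mul_le_mul_right (mul_le_mul_right h1 _) _
            _ ≤ ENNReal.ofReal (la δ s) * (ENNReal.ofReal (c k ^ 2) *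
                (ENNReal.ofReal (4 * (2 ^ m * (1 / 2 : ℝ) ^ s)) *
                ENNReal.ofReal (vo (a k) (b k)))) := by
                refine mul_le_mul_right (mul_le_mul_right ?_ _) _
                rw [← ENNReal.ofReal_mul (by positivity)]
                apply ENNReal.ofReal_le_ofReal
                have h5 : vo (a k) (b k) * vo (a k) (b k) ≤
                    ((1 / 2 : ℝ) ^ s * 2 ^ m) * vo (a k) (b k) :=
                  mul_le_mul_of_nonneg_right h2 h3
                nlinarith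
            _ = _ := by
                rw [ENNReal.ofReal_mul (sq_nonneg (c k))]
                ring
        · simp
    _ = ENNReal.ofReal (4 * (2 ^ m * (1 / 2 : ℝ) ^ s)) *
        ∑ k, (ENNReal.ofReal (cc δ s c a b k ^ 2) * ENNReal.ofReal (vo (a k) (b k))) := by
        rw [Finset.mul_sum]
    _ ≤ ENNReal.ofReal (4 * (2 ^ m * (1 / 2 : ℝ) ^ s)) * 2 ^ m := by
        gcongr
        exact group_vol h hδ s
    _ = _ := by
        have h4 : (2 : ℝ≥0∞) ^ m = ENNReal.ofReal (2 ^ m) := by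
          rw [ENNReal.ofReal_pow (by norm_num), ENNReal.ofReal_ofNat]
        rw [h4, ← ENNReal.ofReal_mul (by positivity)]
        congr 1
        have : (4 : ℝ) ^ m = 2 ^ m * 2 ^ m := by
          rw [← mul_pow]
          norm_num
        rw [this]
        ring

end Pool.Agent.Q167.MS
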