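import Mathlib
import Pool.Agent.Q167.MS.One
set_option autoImplicit false

/-! Random signs on boxes of all scales: the square function. -/

namespace Pool.Agent.Q167.MS

open MeasureTheory Set Complex Filter Topology
open scoped ENNReal NNReal
open Pool.Agent.H147R3.PE (wsum tsum_fin)
open Pool.Agent.H728R3.SR (e1 e1_meas e1_bd ind ind_meas ind_bd Adm SQ ww pc ext ext_pc ext_pc_meas
  square consts2)

variable {m : ℕ} {δ : ℝ}

/-- constants -/
noncomputable def KG (m : ℕ) (δ q q1 : ℝ) (C : ℝ≥0∞) : ℝ≥0∞ :=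
  ENNReal.ofReal (2 ^ (δ * q / 2)) * ENNReal.ofReal ((4 * 4 ^ m) ^ ((q - q1) / 2)) * C

lemma group_q (q q1 : ℝ) (hq1 : 0 < q1) (hqq : q1 ≤ q) (C : ℝ≥0∞)
    (hC : ∀ (ι : Type) [Fintype ι] (c : ι → ℝ) (a b : ι → Fin m → ℝ)
      (g : ι → ℝ → ℂ), Adm c a b g → ∫⁻ y, SQ c a b g y ^ (q1 / 2) ≤ C)
    (ι : Type) [Fintype ι] (c : ι → ℝ) (a b : ι → Fin m → ℝ) (g : ι → ℝ → ℂ) (h : Ad δ c a b g) (hδ : 0 ≤ δ)
    (s : ℕ) :
    ∫⁻ y, SG s c a b g y ^ (q / 2) ≤
      KG m δ q q1 C * ENNReal.ofReal (((2 : ℝ) ^ s) ^ (-((1 - δ) * q - q1) / 2)) := by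
  have hla := la_pos δ s
  have hθ : 0 ≤ (q - q1) / 2 := by linarith
  have hq0 : 0 < q := by linarith
  set X : (Fin (m + 1) → ℝ) × ℝ → ℝ≥0∞ := fun y => ENNReal.ofReal (la δ s) * SG s c a b g y with hX
  have h1 : ∫⁻ y, X y ^ (q1 / 2) ≤ C := by
    have := hC ι (cc δ s c a b) a b g (group_adm h hδ s)
    simp only [group_SQ] at this
    exact this
  have h2 : ∀ y, SG s c a b g y ^ (q / 2) ≤ ENNReal.ofReal (la δ s ^ (-(q / 2))) *
      ENNReal.ofReal ((4 * 4 ^ m * (1 / 2 : ℝ) ^ s) ^ ((q - q1) / 2)) * X y ^ (q1 / 2) := by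
    intro y
    have e1' : SG s c a b g y = ENNReal.ofReal ((la δ s)⁻¹) * X y := by
      rw [hX]
      simp only
      rw [← mul_assoc, ← ENNReal.ofReal_mul (by positivity), inv_mul_cancel₀ hla.ne',
        ENNReal.ofReal_one, one_mul]
    rw [e1', ENNReal.mul_rpow_of_nonneg _ _ (by linarith),
      ENNReal.ofReal_rpow_of_pos (by positivity), Real.inv_rpow hla.le, ← Real.rpow_neg hla.le,
      mul_assoc]
    refine mul_le_mul_right ?_ _
    have e2 : q / 2 = (q - q1) / 2 + q1 / 2 := by ring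
    calc X y ^ (q / 2) = X y ^ ((q - q1) / 2) * X y ^ (q1 / 2) := by
          rw [← ENNReal.rpow_add_of_nonneg _ _ hθ (by linarith), ← e2]
      _ ≤ ENNReal.ofReal (4 * 4 ^ m * (1 / 2 : ℝ) ^ s) ^ ((q - q1) / 2) * X y ^ (q1 / 2) := by
          gcongr
          exact group_sup h hδ s y
      _ = _ := by
          rw [ENNReal.ofReal_rpow_of_pos (by positivity)]
  calc ∫⁻ y, SG s c a b g y ^ (q / 2) ≤ ∫⁻ y, ENNReal.ofReal (la δ s ^ (-(q / 2))) *
      ENNReal.ofReal ((4 * 4 ^ m * (1 / 2 : ℝ) ^ s) ^ ((q - q1) / 2)) * X y ^ (q1 / 2) :=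
        lintegral_mono h2
    _ = ENNReal.ofReal (la δ s ^ (-(q / 2))) *
      ENNReal.ofReal ((4 * 4 ^ m * (1 / 2 : ℝ) ^ s) ^ ((q - q1) / 2)) * ∫⁻ y, X y ^ (q1 / 2) :=
        lintegral_const_mul' _ _ (ENNReal.mul_ne_top ENNReal.ofReal_ne_top ENNReal.ofReal_ne_top)
    _ ≤ ENNReal.ofReal (la δ s ^ (-(q / 2))) *
      ENNReal.ofReal ((4 * 4 ^ m * (1 / 2 : ℝ) ^ s) ^ ((q - q1) / 2)) * C := by gcongr
    _ = _ := by
        unfold KG
        have hT : (0 : ℝ) < 2 ^ s := by positivity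
        have e3 : la δ s ^ (-(q / 2)) = 2 ^ (δ * q / 2) * ((2 : ℝ) ^ s) ^ (δ * q / 2) := by
          unfold la
          rw [one_div, inv_pow, Real.inv_rpow (by positivity), Real.inv_rpow (by positivity),
            Real.rpow_neg (by positivity), inv_inv, ← Real.rpow_mul (by positivity),
            ← Real.mul_rpow (by norm_num) hT.le]
          congr 1
          · ring
          · ring
        have e4 : (4 * 4 ^ m * (1 / 2 : ℝ) ^ s) ^ ((q - q1) / 2) =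
            (4 * 4 ^ m) ^ ((q - q1) / 2) * ((2 : ℝ) ^ s) ^ (-((q - q1) / 2)) := by
          rw [Real.mul_rpow (by positivity) (by positivity), one_div, inv_pow,
            Real.inv_rpow hT.le, Real.rpow_neg hT.le]
        have e5 : ((2 : ℝ) ^ s) ^ (-((1 - δ) * q - q1) / 2) =
            ((2 : ℝ) ^ s) ^ (δ * q / 2) * ((2 : ℝ) ^ s) ^ (-((q - q1) / 2)) := by
          rw [← Real.rpow_add hT]
          congr 1
          ring
        rw [e3, e4, e5, ENNReal.ofReal_mul (by positivity), ENNReal.ofReal_mul (by positivity),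
          ENNReal.ofReal_mul (by positivity)]
        ring

lemma KG_ne (m : ℕ) (δ q q1 : ℝ) {C : ℝ≥0∞} (hC : C ≠ ⊤) : KG m δ q q1 C ≠ ⊤ := by
  unfold KG
  exact ENNReal.mul_ne_top (ENNReal.mul_ne_top ENNReal.ofReal_ne_top ENNReal.ofReal_ne_top) hC

/-- **The square function estimate for boxes of all scales.** -/
theorem all_scales (m : ℕ) (hm : 1 ≤ m) (q δ : ℝ) (hδ : 0 ≤ δ) (hδ1 : δ < 1)
    (hq : 2 * ((m : ℝ) + 2) / (m + 1) < (1 - δ) * q) :
    ∃ C : ℝ≥0∞, C ≠ ⊤ ∧ ∀ (ι : Type) [Fintype ι] (c : ι → ℝ) (a b : ι → Fin m → ℝ)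
      (g : ι → ℝ → ℂ), Ad δ c a b g →
      ∫⁻ y, (∑ k, ENNReal.ofReal (c k ^ 2) * pp (a k) (b k) (g k) y) ^ (q / 2) ≤ C := by
  have hm' : (1 : ℝ) ≤ m := by exact_mod_cast hm
  obtain ⟨q1, hq1a, hq1b⟩ := exists_between hq
  obtain ⟨h2, -⟩ := consts2 m q1 hm' hq1a
  have hq0 : 0 < q := by
    by_contra hn
    push Not at hn
    nlinarith
  have hqq : q1 < q := by nlinarith
  obtain ⟨C, hCt, hC⟩ := square m hm q1 hq1a
  set E := -((1 - δ) * q - q1) / 2 with hEd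
  have hE0 : E < 0 := by
    rw [hEd]
    linarith
  set κ := -E / (2 * (q / 2 - 1)) with hκ
  have hq1 : 0 < q / 2 - 1 := by linarith
  have hκ0 : 0 < κ := by
    rw [hκ]
    apply div_pos (by linarith) (by linarith)
  have hκE : κ * (q / 2 - 1) + E = E / 2 := by
    rw [hκ, div_mul_eq_mul_div, mul_div_mul_right _ _ hq1.ne']
    linarith
  set ρ : ℝ := (2 : ℝ) ^ (-κ) with hρ
  have hρ0 : 0 < ρ := by positivity
  have hρj : ∀ j : ℕ, ρ ^ j = ((2 : ℝ) ^ j) ^ (-κ) := by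
    intro j
    rw [hρ, ← Real.rpow_natCast, ← Real.rpow_natCast, ← Real.rpow_mul (by norm_num),
      ← Real.rpow_mul (by norm_num), mul_comm]
  set S1 : ℝ≥0∞ := ∑' j : ℕ, ENNReal.ofReal (((2 : ℝ) ^ j) ^ (-κ)) with hS1
  have hS1t : S1 ≠ ⊤ := tsum_fin _ (by linarith)
  set S2 : ℝ≥0∞ := ∑' j : ℕ, ENNReal.ofReal (((2 : ℝ) ^ j) ^ (E / 2)) with hS2
  have hS2t : S2 ≠ ⊤ := tsum_fin _ (by linarith)
  have hSr : S1 ^ (q / 2 - 1) ≠ ⊤ := ENNReal.rpow_ne_top_of_nonneg hq1.le hS1t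
  refine ⟨S1 ^ (q / 2 - 1) * (KG m δ q q1 C * S2), ENNReal.mul_ne_top hSr
    (ENNReal.mul_ne_top (KG_ne m δ q q1 hCt) hS2t), ?_⟩
  intro ι _ c a b g h
  have hFm : ∀ j, Measurable (SG j c a b g) := fun j => SG_meas h j
  have h1 : ∀ y, (∑ k, ENNReal.ofReal (c k ^ 2) * pp (a k) (b k) (g k) y) ^ (q / 2) ≤ S1 ^ (q / 2 - 1) *
      ∑' j : ℕ, ENNReal.ofReal (((2 : ℝ) ^ j) ^ (κ * (q / 2 - 1))) *
        SG j c a b g y ^ (q / 2) := by
    intro y
    calc (∑ k, ENNReal.ofReal (c k ^ 2) * pp (a k) (b k) (g k) y) ^ (q / 2) ≤ (∑' j, SG j c a b g y) ^ (q / 2) := by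
          gcongr
          exact SG_sum h y
      _ ≤ _ := wsum (fun j => SG j c a b g y) ρ hρ0 (q / 2) (by linarith)
      _ = _ := by
          simp only [hρj]
          congr 1
          apply tsum_congr
          intro j
          rw [← Real.rpow_mul (by positivity), neg_mul_neg]
  calc ∫⁻ y, (∑ k, ENNReal.ofReal (c k ^ 2) * pp (a k) (b k) (g k) y) ^ (q / 2) ≤ ∫⁻ y, S1 ^ (q / 2 - 1) *
      ∑' j : ℕ, ENNReal.ofReal (((2 : ℝ) ^ j) ^ (κ * (q / 2 - 1))) *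
        SG j c a b g y ^ (q / 2) := lintegral_mono h1
    _ = S1 ^ (q / 2 - 1) * ∑' j : ℕ, ENNReal.ofReal (((2 : ℝ) ^ j) ^ (κ * (q / 2 - 1))) *
        ∫⁻ y, SG j c a b g y ^ (q / 2) := by
        rw [lintegral_const_mul' _ _ hSr, lintegral_tsum fun j =>
          (((hFm j).pow_const _).const_mul _).aemeasurable]
        congr 1
        apply tsum_congr
        intro j
        rw [lintegral_const_mul _ ((hFm j).pow_const _)]
    _ ≤ S1 ^ (q / 2 - 1) * ∑' j : ℕ, ENNReal.ofReal (((2 : ℝ) ^ j) ^ (κ * (q / 2 - 1))) *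
        (KG m δ q q1 C * ENNReal.ofReal (((2 : ℝ) ^ j) ^ E)) := by
        gcongr with j
        exact group_q q q1 (by linarith) hqq.le C hC ι c a b g h hδ j
    _ = _ := by
        congr 1
        rw [← ENNReal.tsum_mul_left]
        apply tsum_congr
        intro j
        have hT : (0 : ℝ) < 2 ^ j := by positivity
        rw [← hκE, Real.rpow_add hT (κ * (q / 2 - 1)) E,
          ENNReal.ofReal_mul (p := ((2 : ℝ) ^ j) ^ (κ * (q / 2 - 1))) (by positivity),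
          mul_left_comm]

end Pool.Agent.Q167.MS
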