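import Mathlib
import Pool.Agent.Q167.MS.Two
import Pool.Agent.Q167.QW.Five
set_option autoImplicit false

/-! Random signs on boxes of all scales: average over signs. -/

namespace Pool.Agent.Q167.MS

open MeasureTheory Set Complex Filter Topology
open scoped ENNReal NNReal
open Pool.Agent.H728R3.SR (e1 e1_meas e1_bd ind ind_meas ind_bd Adm SQ ww pc ext ext_pc ext_pc_meas
  square consts2 khinchine K1 sg)
open Pool.Agent.Q167.QW (ext_sum)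

lemma pc_meas {m : ℕ} (a b : Fin m → ℝ) {g : ℝ → ℂ} (hg : Measurable g) :
    Measurable (pc a b g) := by
  have h1 : Measurable fun ξ : Fin (m + 1) → ℝ => (Fin.tail ξ : Fin m → ℝ) := by
    rw [measurable_pi_iff]
    intro j
    exact measurable_pi_apply _
  have h2 : pc a b g = ((fun ξ : Fin (m + 1) → ℝ => (Fin.tail ξ : Fin m → ℝ)) ⁻¹'
      (Icc a b)).indicator (fun ξ => g (ξ 0)) := by
    ext ξ
    unfold pc
    by_cases h : Fin.tail ξ ∈ Icc a b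
    · rw [indicator_of_mem h, indicator_of_mem (by exact h)]
    · rw [indicator_of_notMem h, indicator_of_notMem (by exact h)]
  rw [h2]
  exact (hg.comp (measurable_pi_apply 0)).indicator (h1 measurableSet_Icc)

lemma pc_bd {m : ℕ} (a b : Fin m → ℝ) {g : ℝ → ℂ} (hg : ∀ y, ‖g y‖ ≤ 1) (ξ : Fin (m + 1) → ℝ) :
    ‖pc a b g ξ‖ ≤ 1 := by
  unfold pc
  exact (norm_indicator_le_norm_self _ _).trans (hg _)

lemma avg_le {Y : Type*} [MeasurableSpace Y] (μ : Measure Y) (N : ℕ) (Z : Fin N → Y → ℂ)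
    (hZ : ∀ k, Measurable (Z k)) (q : ℝ) (hq : 0 < q) :
    ((2 : ℝ≥0∞) ^ N)⁻¹ * ∑ ε : Fin N → Bool,
        ∫⁻ y, ‖∑ k, (sg (ε k) : ℂ) * Z k y‖ₑ ^ q ∂μ ≤
      ENNReal.ofReal (K1 q) * ∫⁻ y, (∑ k, ‖Z k y‖ₑ ^ 2) ^ (q / 2) ∂μ := by
  rw [← lintegral_finsetSum]
  · have h1 : ∫⁻ y, ∑ ε : Fin N → Bool,
        ‖∑ k, (sg (ε k) : ℂ) * Z k y‖ₑ ^ q ∂μ ≤
        ∫⁻ y, 2 ^ N * (ENNReal.ofReal (K1 q) *
          (∑ k, ‖Z k y‖ₑ ^ 2) ^ (q / 2)) ∂μ := by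
      apply lintegral_mono
      intro y
      have := khinchine q hq (fun k => Z k y)
      rw [Fintype.card_fin] at this
      exact this
    rw [lintegral_const_mul' _ _ (by simp), lintegral_const_mul' _ _ ENNReal.ofReal_ne_top] at h1
    calc _ ≤ ((2 : ℝ≥0∞) ^ N)⁻¹ * (2 ^ N * (ENNReal.ofReal (K1 q) *
          ∫⁻ y, (∑ k, ‖Z k y‖ₑ ^ 2) ^ (q / 2) ∂μ)) := mul_le_mul_right h1 _
      _ = _ := by
          rw [← mul_assoc, ENNReal.inv_mul_cancel (by simp) (by simp), one_mul]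
  · intro ε _
    apply Measurable.pow_const
    apply Measurable.enorm
    exact Finset.measurable_sum _ fun k _ => (hZ k).const_mul _

/-- Cauchy's inequality -/
lemma cs_fin (M : ℕ) (z : Fin M → ℂ) : ‖∑ l, z l‖ₑ ^ 2 ≤ M * ∑ l, ‖z l‖ₑ ^ 2 := by
  have h1 : ‖∑ l, z l‖ ^ 2 ≤ M * ∑ l, ‖z l‖ ^ 2 := by
    calc ‖∑ l, z l‖ ^ 2 ≤ (∑ l, ‖z l‖) ^ 2 := by
          gcongr
          exact norm_sum_le _ _
      _ ≤ (Finset.univ : Finset (Fin M)).card * ∑ l, ‖z l‖ ^ 2 := sq_sum_le_card_mul_sum_sq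
      _ = _ := by simp
  rw [← ofReal_norm, ← ENNReal.ofReal_pow (norm_nonneg _)]
  refine (ENNReal.ofReal_le_ofReal h1).trans (le_of_eq ?_)
  rw [ENNReal.ofReal_mul (by positivity), ENNReal.ofReal_natCast,
    ENNReal.ofReal_sum_of_nonneg fun _ _ => sq_nonneg _]
  congr 1
  apply Finset.sum_congr rfl
  intro l _
  rw [ENNReal.ofReal_pow (norm_nonneg _), ofReal_norm]

/-- a block -/
noncomputable def blk {m M : ℕ} (c : Fin M → ℝ) (a b : Fin M → Fin m → ℝ) (g : Fin M → ℝ → ℂ)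
    (ξ : Fin (m + 1) → ℝ) : ℂ := ∑ l, (c l : ℂ) * pc (a l) (b l) (g l) ξ

theorem ms_avg (m : ℕ) (hm : 1 ≤ m) (q δ : ℝ) (hδ : 0 ≤ δ) (hδ1 : δ < 1)
    (hq : 2 * ((m : ℝ) + 2) / (m + 1) < (1 - δ) * q) :
    ∃ C : ℝ≥0∞, C ≠ ⊤ ∧ ∀ (N M : ℕ) (c : Fin N → Fin M → ℝ) (a b : Fin N → Fin M → Fin m → ℝ)
      (g : Fin N → Fin M → ℝ → ℂ),
      Ad δ (fun p : Fin N × Fin M => c p.1 p.2) (fun p => a p.1 p.2) (fun p => b p.1 p.2)
        (fun p => g p.1 p.2) →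
      ((2 : ℝ≥0∞) ^ N)⁻¹ * ∑ ε : Fin N → Bool, ∫⁻ y,
        ‖ext (fun ξ => ∑ k, (sg (ε k) : ℂ) * blk (c k) (a k) (b k) (g k) ξ) y‖ₑ ^ q ≤
      C * (M : ℝ≥0∞) ^ (q / 2) := by
  have hm' : (1 : ℝ) ≤ m := by exact_mod_cast hm
  obtain ⟨q1, hq1a, hq1b⟩ := exists_between hq
  obtain ⟨h2, -⟩ := consts2 m q1 hm' hq1a
  have hq0 : 0 < q := by
    by_contra hn
    push Not at hn
    nlinarith
  obtain ⟨C, hC, hCC⟩ := all_scales m hm q δ hδ hδ1 hq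
  refine ⟨ENNReal.ofReal (K1 q) * C, ENNReal.mul_ne_top ENNReal.ofReal_ne_top hC, ?_⟩
  intro N M c a b g h
  set f : Fin N × Fin M → (Fin (m + 1) → ℝ) → ℂ := fun p => pc (a p.1 p.2) (b p.1 p.2) (g p.1 p.2)
    with hf
  set Z : Fin N → (Fin (m + 1) → ℝ) × ℝ → ℂ := fun k y => ∑ l, (c k l : ℂ) * ext (f (k, l)) y
    with hZd
  have hZ : ∀ k, Measurable (Z k) := by
    intro k
    exact Finset.measurable_sum _ fun l _ => (ext_pc_meas _ _ _ (h.meas (k, l))).const_mul _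
  have hE : ∀ (ε : Fin N → Bool) y,
      ext (fun ξ => ∑ k, (sg (ε k) : ℂ) * blk (c k) (a k) (b k) (g k) ξ) y =
      ∑ k, (sg (ε k) : ℂ) * Z k y := by
    intro ε y
    set e : Fin (N * M) ≃ Fin N × Fin M := finProdFinEquiv.symm with he
    have h3 : (fun ξ : Fin (m + 1) → ℝ => ∑ k, (sg (ε k) : ℂ) * blk (c k) (a k) (b k) (g k) ξ) =
        fun ξ => ∑ i : Fin (N * M), ((sg (ε (e i).1) : ℂ) * (c (e i).1 (e i).2 : ℂ)) * f (e i) ξ := by
      ext ξ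
      rw [Equiv.sum_comp e (fun p => ((sg (ε p.1) : ℂ) * (c p.1 p.2 : ℂ)) * f p ξ),
        Fintype.sum_prod_type]
      apply Finset.sum_congr rfl
      intro k _
      unfold blk
      rw [Finset.mul_sum]
      apply Finset.sum_congr rfl
      intro l _
      rw [mul_assoc]
    rw [h3, ext_sum (fun i => f (e i)) (fun i => pc_meas _ _ (h.meas (e i)))
      (fun i => pc_bd _ _ (h.bd (e i))),
      Equiv.sum_comp e (fun p => ((sg (ε p.1) : ℂ) * (c p.1 p.2 : ℂ)) * ext (f p) y),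
      Fintype.sum_prod_type]
    apply Finset.sum_congr rfl
    intro k _
    rw [hZd]
    simp only
    rw [Finset.mul_sum]
    apply Finset.sum_congr rfl
    intro l _
    rw [mul_assoc]
  simp only [hE]
  refine (avg_le volume N Z hZ q hq0).trans ?_
  rw [mul_assoc]
  refine mul_le_mul_right ?_ _
  have hpt : ∀ y, (∑ k, ‖Z k y‖ₑ ^ 2) ^ (q / 2) ≤ (M : ℝ≥0∞) ^ (q / 2) *
      (∑ p : Fin N × Fin M, ENNReal.ofReal (c p.1 p.2 ^ 2) *
        pp (a p.1 p.2) (b p.1 p.2) (g p.1 p.2) y) ^ (q / 2) := by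
    intro y
    rw [← ENNReal.mul_rpow_of_nonneg _ _ (by linarith)]
    gcongr
    rw [Fintype.sum_prod_type, Finset.mul_sum]
    apply Finset.sum_le_sum
    intro k _
    refine (cs_fin M fun l => (c k l : ℂ) * ext (f (k, l)) y).trans (le_of_eq ?_)
    congr 1
    apply Finset.sum_congr rfl
    intro l _
    rw [enorm_mul, mul_pow]
    congr 1
    rw [← ofReal_norm, ← ENNReal.ofReal_pow (norm_nonneg _), Complex.norm_real,
      Real.norm_eq_abs, sq_abs]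
  calc ∫⁻ y, (∑ k, ‖Z k y‖ₑ ^ 2) ^ (q / 2) ≤ ∫⁻ y, (M : ℝ≥0∞) ^ (q / 2) *
      (∑ p : Fin N × Fin M, ENNReal.ofReal (c p.1 p.2 ^ 2) *
        pp (a p.1 p.2) (b p.1 p.2) (g p.1 p.2) y) ^ (q / 2) := lintegral_mono hpt
    _ = (M : ℝ≥0∞) ^ (q / 2) * ∫⁻ y, (∑ p : Fin N × Fin M, ENNReal.ofReal (c p.1 p.2 ^ 2) *
        pp (a p.1 p.2) (b p.1 p.2) (g p.1 p.2) y) ^ (q / 2) :=
        lintegral_const_mul' _ _ (ENNReal.rpow_ne_top_of_nonneg (by linarith)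
          (ENNReal.natCast_ne_top M))
    _ ≤ (M : ℝ≥0∞) ^ (q / 2) * C := by
        gcongr
        exact hCC _ _ _ _ _ h
    _ = _ := mul_comm _ _

end Pool.Agent.Q167.MS
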